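import Pool.Agent.Helper76.SGA.Goals
import Pool.Agent.Helper9.Ru.DivBound
import Pool.Agent.Helper96.Ru.HeightLocal

/-! Packet SGA-STEPB: elimination of the last variable in the block Roth lemma. -/

set_option autoImplicit false

open MvPolynomial

namespace Pool.Agent.Helper92.SGA

open Pool.Agent.Helper92.Ru Pool.Agent.Helper42.SG Pool.Agent.Helper76.SGA

/-- lower bound for the sum of the weights -/
theorem sum_lower (s : ℕ) (r x θ ω : ℝ) (hr : 0 < r) (hθ : 0 < θ) (hx : 3 / 4 * θ ≤ x)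
    (hω1 : ω ≤ 1) (hs : ω * s ≤ θ * r / 2) :
    ω * s * (θ / 4) ≤ ∑ j : Fin s, max 0 (x - (j : ℝ) / r) := by
  set N : ℕ := min s (⌊θ * r / 2⌋₊ + 1) with hN
  have e1 : ∑ j : Fin s, max 0 (x - (j : ℝ) / r) =
      ∑ j ∈ Finset.range s, max 0 (x - (j : ℝ) / r) :=
    Fin.sum_univ_eq_sum_range (fun j => max 0 (x - (j : ℝ) / r)) s
  rw [e1]
  have e2 : ∑ j ∈ Finset.range N, max 0 (x - (j : ℝ) / r) ≤
      ∑ j ∈ Finset.range s, max 0 (x - (j : ℝ) / r) := by
    apply Finset.sum_le_sum_of_subset_of_nonneg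
    · intro j hj
      rw [Finset.mem_range] at hj ⊢
      exact lt_of_lt_of_le hj (min_le_left _ _)
    · intro j _ _
      exact le_max_left _ _
  have e3 : (N : ℝ) * (θ / 4) ≤ ∑ j ∈ Finset.range N, max 0 (x - (j : ℝ) / r) := by
    have h := Finset.card_nsmul_le_sum (Finset.range N)
      (fun j : ℕ => max 0 (x - (j : ℝ) / r)) (θ / 4) ?_
    · rw [Finset.card_range, nsmul_eq_mul] at h
      exact h
    · intro j hj
      rw [Finset.mem_range] at hj
      have hj1 : j < ⌊θ * r / 2⌋₊ + 1 := lt_of_lt_of_le hj (min_le_right _ _)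
      have hj2 : j ≤ ⌊θ * r / 2⌋₊ := by omega
      have hj3 : (j : ℝ) ≤ θ * r / 2 := by
        have h0 : (0 : ℝ) ≤ θ * r / 2 := by positivity
        calc (j : ℝ) ≤ (⌊θ * r / 2⌋₊ : ℝ) := by exact_mod_cast hj2
          _ ≤ θ * r / 2 := Nat.floor_le h0
      have hj4 : (j : ℝ) / r ≤ θ / 2 := by
        rw [div_le_iff₀ hr]
        linarith
      have : θ / 4 ≤ x - (j : ℝ) / r := by linarith
      exact this.trans (le_max_right _ _)
  have e4 : ω * s ≤ N := by
    rw [hN, Nat.cast_min]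
    apply le_min
    · have h0 : (0 : ℝ) ≤ s := Nat.cast_nonneg s
      nlinarith
    · have h1 : θ * r / 2 < (⌊θ * r / 2⌋₊ : ℝ) + 1 := Nat.lt_floor_add_one _
      push_cast
      linarith
  have e5 : ω * s * (θ / 4) ≤ N * (θ / 4) :=
    mul_le_mul_of_nonneg_right e4 (by positivity)
  linarith

theorem log_PH_nonneg {k : Type} [Field k] [NumberField k] {σ : Type} (p : MvPolynomial σ k) :
    0 ≤ Real.log (PH p) :=
  Real.log_nonneg (Height.one_le_mulHeight _)

theorem stepb (h1 : WRON) : STEPB := by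
  intro k _ _ m σ hσ
  obtain ⟨C₀, hC₀, H1⟩ := h1 k m
  set Dk : ℝ := (Module.finrank ℚ k : ℝ) with hDk
  have hDk0 : 0 ≤ Dk := Nat.cast_nonneg _
  have hlog2 : 0 ≤ Real.log 2 := Real.log_nonneg (by norm_num)
  set ω : ℝ := min 1 (σ / 4) with hω
  have hω0 : 0 < ω := lt_min one_pos (by linarith)
  have hω1 : ω ≤ 1 := min_le_left _ _
  have hω2 : ω ≤ σ / 4 := min_le_right _ _
  set σ₄ : ℝ := ω * (σ / 4) with hσ₄
  have hσ₄0 : 0 < σ₄ := by positivity
  set K : ℝ := Dk * Real.log 2 + 1 + 2 * C₀ with hK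
  have hK0 : 0 ≤ K := by positivity
  refine ⟨1 + 2 * C₀, 1 + 2 / σ₄ * K, ω, σ₄ / 2, by linarith, ?_, hω0, hω1, by positivity, ?_⟩
  · have : 0 ≤ 2 / σ₄ * K := by positivity
    linarith
  intro r ξ H W g hr hωr hrW hinv hKc
  obtain ⟨hg0, hW, hdeg, hPH, hind⟩ := hinv
  set r0 : ℝ := (r (Fin.last m) : ℝ) with hr0
  have hr01 : 1 ≤ r0 := by
    rw [hr0]
    exact_mod_cast (hr (Fin.last m)).1
  have hr0H : r0 ≤ H := (hr (Fin.last m)).2
  have hr0pos : 0 < r0 := by linarith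
  have hH : 0 < H := by linarith
  have hHW : 1 ≤ H * W := hrW.trans (mul_le_mul_of_nonneg_right hr0H hW.le)
  set D : ℕ := g.degreeOf (Fin.last m) with hD
  have hDW : (D : ℝ) ≤ r0 * W := hdeg (Fin.last m)
  set R : ℕ := ⌈H * W⌉₊ with hR
  have hR1 : H * W ≤ R := Nat.le_ceil _
  have hR2 : (R : ℝ) ≤ 2 * (H * W) := by
    have : (R : ℝ) < H * W + 1 := Nat.ceil_lt_add_one (by positivity)
    linarith
  have hRpos : 1 ≤ R := by
    have : (1 : ℝ) ≤ R := hHW.trans hR1
    exact_mod_cast this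
  have hdegR : ∀ h, g.degreeOf h ≤ R := by
    intro h
    have : (g.degreeOf h : ℝ) ≤ R :=
      (hdeg h).trans ((mul_le_mul_of_nonneg_right (hr h).2 hW.le).trans hR1)
    exact_mod_cast this
  have hρ0 : 0 < r0 / ω := by positivity
  have hρ : ∀ h : Fin m, r0 / ω ≤ r (Fin.castSucc h) := by
    intro h
    rw [div_le_iff₀ hω0]
    have := hωr h
    linarith
  obtain ⟨s, U, V, hs1, hs2, hU, hV, hdU, hdV, hheight, a, b, ha, hb, hsum, hIU, hIV⟩ :=
    H1 r D R (r0 / ω) (σ * W) ξ g hg0 (fun h => (hr h).1) hRpos hdegR le_rfl (hdegR _) hρ0 hρ hind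
  have hs0 : (0 : ℝ) < s := by exact_mod_cast hs1
  have hs2' : (s : ℝ) ≤ D + 1 := by exact_mod_cast hs2
  have hx : 3 / 4 * (σ * W) ≤ σ * W - D / (r0 / ω) := by
    have h2 : (D : ℝ) / (r0 / ω) ≤ ω * W := by
      rw [div_div_eq_mul_div, div_le_iff₀ hr0pos]
      nlinarith
    have h3 : ω * W ≤ σ / 4 * W := mul_le_mul_of_nonneg_right hω2 hW.le
    linarith
  have hsω : ω * s ≤ (σ * W) * r0 / 2 := by
    have h2 : (s : ℝ) ≤ 2 * (r0 * W) := by linarith
    calc ω * s ≤ σ / 4 * (2 * (r0 * W)) := mul_le_mul hω2 h2 hs0.le (by positivity)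
      _ = (σ * W) * r0 / 2 := by ring
  have hlow := sum_lower s r0 (σ * W - D / (r0 / ω)) (σ * W) ω hr0pos (by positivity) hx hω1 hsω
  have hab : s * σ₄ * W ≤ a + b := by
    have : ω * s * (σ * W / 4) = s * σ₄ * W := by rw [hσ₄]; ring
    linarith
  have hlU : 0 ≤ Real.log (PH U) := log_PH_nonneg U
  have hlV : 0 ≤ Real.log (PH V) := log_PH_nonneg V
  have hht : (s : ℝ) * (Real.log (PH g) + C₀ * R) ≤ (1 + 2 * C₀) * H * (s * W) := by
    have h2 : C₀ * (R : ℝ) ≤ C₀ * (2 * (H * W)) := mul_le_mul_of_nonneg_left hR2 hC₀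
    have h3 : Real.log (PH g) + C₀ * R ≤ (1 + 2 * C₀) * (H * W) := by linarith
    calc (s : ℝ) * (Real.log (PH g) + C₀ * R) ≤ s * ((1 + 2 * C₀) * (H * W)) :=
          mul_le_mul_of_nonneg_left h3 hs0.le
      _ = (1 + 2 * C₀) * H * (s * W) := by ring
  by_cases hb2 : s * σ₄ * W / 2 ≤ b
  · exfalso
    set hh : ℝ := Height.logHeight₁ (ξ (Fin.last m)) with hhh
    set n : ℕ := ⌈r0 * (s * σ₄ * W / 2)⌉₊ with hn
    have hdiv := Pool.Agent.Helper9.Ru.divBound Pool.Agent.Helper96.Ru.heightLocal k (ξ (Fin.last m)) n (V.degreeOf 0) V hV le_rfl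
      (by
        intro e he
        have h2 := hIV e he
        rw [Fin.sum_univ_one] at h2
        rw [hn]
        apply Nat.ceil_le.mpr
        rw [le_div_iff₀ hr0pos] at h2
        nlinarith)
    have hm1 : 1 ≤ Height.mulHeight₁ (ξ (Fin.last m)) := Height.one_le_mulHeight₁ _
    have hpv : 0 < PH V := lt_of_lt_of_le one_pos (Height.one_le_mulHeight _)
    have hlogs := Real.log_le_log (by positivity) hdiv
    rw [Real.log_pow, Real.log_mul (by positivity) hpv.ne', Real.log_pow] at hlogs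
    have hh0 : 0 ≤ hh := by
      rw [hhh, Height.logHeight₁]
      exact Real.log_nonneg hm1
    have hn1 : r0 * (s * σ₄ * W / 2) ≤ n := Nat.le_ceil _
    have h3 : r0 * (s * σ₄ * W / 2) * hh ≤ n * hh := mul_le_mul_of_nonneg_right hn1 hh0
    have h4 : (n : ℝ) * hh = n * Real.log (Height.mulHeight₁ (ξ (Fin.last m))) := by
      rw [hhh, Height.logHeight₁]
    have hdV' : (V.degreeOf 0 : ℝ) ≤ s * (H * W) := by
      have h5 : (V.degreeOf 0 : ℝ) ≤ s * D := by exact_mod_cast hdV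
      have h6 : (D : ℝ) ≤ H * W := hDW.trans (mul_le_mul_of_nonneg_right hr0H hW.le)
      exact h5.trans (mul_le_mul_of_nonneg_left h6 hs0.le)
    have h7 : ((V.degreeOf 0 * Module.finrank ℚ k : ℕ) : ℝ) * Real.log 2 ≤
        s * (H * W) * (Dk * Real.log 2) := by
      push_cast
      rw [mul_assoc]
      exact mul_le_mul_of_nonneg_right hdV' (by positivity)
    have h8 : r0 * (s * σ₄ * W / 2) * hh ≤ s * (H * W) * K := by
      rw [hK]
      nlinarith
    have h9 : r0 * hh * (σ₄ / 2) ≤ H * K := by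
      have hsW : 0 < s * W := by positivity
      have : (s * W) * (r0 * hh * (σ₄ / 2)) ≤ (s * W) * (H * K) := by nlinarith
      exact le_of_mul_le_mul_left this hsW
    have h10 : r0 * hh ≤ 2 / σ₄ * K * H := by
      have : r0 * hh ≤ H * K / (σ₄ / 2) := by
        rw [le_div_iff₀ (by positivity)]
        exact h9
      calc r0 * hh ≤ H * K / (σ₄ / 2) := this
        _ = 2 / σ₄ * K * H := by field_simp
    nlinarith
  · push Not at hb2
    refine ⟨U, s * W, hU, by positivity, ?_, ?_, ?_⟩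
    · intro h
      have h2 : (U.degreeOf h : ℝ) ≤ s * g.degreeOf (Fin.castSucc h) := by exact_mod_cast hdU h
      calc (U.degreeOf h : ℝ) ≤ s * g.degreeOf (Fin.castSucc h) := h2
        _ ≤ s * (r (Fin.castSucc h) * W) := mul_le_mul_of_nonneg_left (hdeg _) hs0.le
        _ = r (Fin.castSucc h) * (s * W) := by ring
    · linarith
    · intro e he
      have h2 := hIU e he
      have h3 : σ₄ / 2 * (s * W) ≤ a := by nlinarith
      exact h3.trans h2

end Pool.Agent.Helper92.SGA
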